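import Pool.Graph.R_seed8.W677.Summand3
import Pool.Graph.R_seed8.Results.MP_eba1ef_gt.UnconditionalSums
import Pool.Agent.H768.C4.Iface

set_option autoImplicit false

/-!
# Bodies in `ℂ × ℂ` invariant under the rotations of the first coordinate

A transport of the library theorem on unconditional sums (`k = 2`, `r = 1`, `m = 2`).
-/

open Set Topology Module

namespace Pool.Agent.H734.C4

open Pool.Agent.H768.C4

/-- the plane -/
abbrev P : Type := EuclideanSpace ℝ (Fin 2)

/-- the real coordinates of the complex plane -/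
noncomputable abbrev re : ℂ ≃ₗᵢ[ℝ] P := Complex.orthonormalBasisOneI.repr

/-- the transport -/
noncomputable def tr : (ℂ × ℂ) ≃L[ℝ] (P × (Fin 1 → P)) :=
  (ContinuousLinearEquiv.prodComm ℝ ℂ ℂ).trans
    (ContinuousLinearEquiv.prodCongr re.toContinuousLinearEquiv
      (re.toContinuousLinearEquiv.trans (ContinuousLinearEquiv.funUnique (Fin 1) ℝ P).symm))

theorem tr_fst (z : ℂ × ℂ) : (tr z).1 = re z.2 := rfl

theorem tr_snd (z : ℂ × ℂ) (i : Fin 1) : (tr z).2 i = re z.1 := rfl

theorem gauge_eq (v : P) : gauge (Metric.closedBall (0 : P) 1) v = ‖v‖ := by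
  rw [gauge_closedBall zero_le_one]
  simp

theorem rot_of_norm {z w : ℂ} (h : ‖z‖ = ‖w‖) : ∃ θ : ℝ, w = Complex.exp (θ * Complex.I) * z := by
  refine ⟨w.arg - z.arg, ?_⟩
  rcases eq_or_ne z 0 with rfl | hz
  · have : w = 0 := by
      rw [norm_zero] at h
      exact norm_eq_zero.1 h.symm
    rw [this, mul_zero]
  · calc w = ‖w‖ * Complex.exp (w.arg * Complex.I) := (Complex.norm_mul_exp_arg_mul_I w).symm
      _ = ‖z‖ * Complex.exp (((w.arg - z.arg : ℝ) : ℂ) * Complex.I + z.arg * Complex.I) := by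
          rw [← h]
          congr 2
          push_cast
          ring
      _ = Complex.exp (((w.arg - z.arg : ℝ) : ℂ) * Complex.I) *
            (‖z‖ * Complex.exp (z.arg * Complex.I)) := by
          rw [Complex.exp_add]; ring
      _ = _ := by rw [Complex.norm_mul_exp_arg_mul_I z]

/-- **ROT.** -/
theorem rot : S_rot := by
  intro K hK hKc hKi hinv
  apply Cov.of_image tr
  set K' : Set (P × (Fin 1 → P)) := tr '' K with hK'
  have hmem : ∀ (x : P) (y : Fin 1 → P), (x, y) ∈ K' ↔ (re.symm (y 0), re.symm x) ∈ K := by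
    intro x y
    constructor
    · rintro ⟨z, hz, h⟩
      have h1 : re z.2 = x := by rw [← tr_fst, h]
      have h2 : re z.1 = y 0 := by rw [← tr_snd z 0, h]
      rw [← h1, ← h2, LinearIsometryEquiv.symm_apply_apply, LinearIsometryEquiv.symm_apply_apply]
      exact hz
    · intro h
      refine ⟨_, h, ?_⟩
      refine Prod.ext ?_ ?_
      · rw [tr_fst, LinearIsometryEquiv.apply_symm_apply]
      · funext i
        rw [tr_snd, Subsingleton.elim i 0, LinearIsometryEquiv.apply_symm_apply]
  have hc : Convex ℝ K' := hK.linear_image tr.toLinearEquiv.toLinearMap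
  have hcc : IsCompact K' := hKc.image tr.continuous
  have hci : (interior K').Nonempty := by
    have : interior K' = tr '' interior K := (tr.toHomeomorph.image_interior K).symm
    rw [this]
    exact hKi.image _
  have hLc : ∀ i : Fin 1, Convex ℝ ((fun _ : Fin 1 => Metric.closedBall (0 : P) 1) i) :=
    fun _ => convex_closedBall _ _
  have hLk : ∀ i : Fin 1, IsCompact ((fun _ : Fin 1 => Metric.closedBall (0 : P) 1) i) :=
    fun _ => isCompact_closedBall _ _
  have hL0 : ∀ i : Fin 1, (0 : P) ∈ interior ((fun _ : Fin 1 => Metric.closedBall (0 : P) 1) i) :=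
    fun _ => by
      rw [mem_interior_iff_mem_nhds]
      exact Metric.closedBall_mem_nhds _ one_pos
  have hin : ∀ (x : P) (y y' : Fin 1 → P), (x, y) ∈ K' →
      (∀ i, gauge ((fun _ : Fin 1 => Metric.closedBall (0 : P) 1) i) (y' i) =
        gauge ((fun _ : Fin 1 => Metric.closedBall (0 : P) 1) i) (y i)) → (x, y') ∈ K' := by
    intro x y y' h hg
    rw [hmem] at h ⊢
    have h1 := hg 0
    simp only [gauge_eq] at h1
    obtain ⟨θ, hθ⟩ := rot_of_norm (z := re.symm (y 0)) (w := re.symm (y' 0)) (by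
      rw [LinearIsometryEquiv.norm_map, LinearIsometryEquiv.norm_map, h1])
    have := hinv θ _ h
    rw [← hθ] at this
    exact this
  have main := (Pool.Agent.Results.MP_eba1ef_gt.UnconditionalSums.result 2 1 (fun _ => 2)
    (fun _ => by norm_num) (fun _ => Metric.closedBall 0 1) hLc hLk hL0 K' hc hcc hci hin).1
  have hmono := Pool.Agent.H765R3.Had.mono_of_inv hLc hLk hL0 hc hin
  obtain ⟨b1, b2, b3⟩ := Pool.Agent.H765R3.Had.section_body hLc hLk hL0 hc hcc hci hmono
  obtain ⟨T, hT, hT'⟩ := Pool.Agent.W677.Summand.body_le_two (d := 2) le_rfl ⟨b1, b2, b3⟩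
  obtain ⟨S, hS, hS'⟩ := (main (2 ^ 2) (fun _ => 2 + 1) ⟨T, hT, hT'⟩
    (fun _ => Pool.Agent.H765R3.Had.ball_cover 2)).1
  refine ⟨S, ?_, hS'⟩
  simpa using hS

end Pool.Agent.H734.C4
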